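import Pool.Agent.Helper83_MVO.Fin
import Pool.Agent.Helper83_MVO.Rows

/-!
# Monoid varieties with modular subvariety lattice: the varieties for which `x²` is an isoterm and
the varieties in which all high powers are central

`S u v` stands for: the variety satisfies the identity `u ≈ v`.  Words are lists of letters; the
letters `0, 1, 2, 3` are written `x, y, t, s` in the comments.
-/

namespace Pool.Agent.Results.MP_23468a_al.CentralPowers

open Pool.Agent.Helper14_MV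

/-- every letter of `c` occurs at least twice in `w` -/
def Mul (c w : List ℕ) : Prop := ∀ a ∈ c, 2 ≤ w.count a

section

variable (S : List ℕ → List ℕ → Prop)

/-! ### identities in which only `x` is repeated -/

/-- `x²tx ≈ xtx²` -/
def P1 : Prop := S [0, 0, 2, 0] [0, 2, 0, 0]
/-- `xtx² ≈ tx³` -/
def P2 : Prop := S [0, 2, 0, 0] [2, 0, 0, 0]
/-- `x³t ≈ x²tx` -/
def P3 : Prop := S [0, 0, 0, 2] [0, 0, 2, 0]
/-- `tx³ ≈ x²tx` and `xtx² ≈ x³t` -/
def P4 : Prop := S [2, 0, 0, 0] [0, 0, 2, 0] ∧ S [0, 2, 0, 0] [0, 0, 0, 2]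
/-- `xtxsx ≈ x²tsx` -/
def Q1 : Prop := S [0, 2, 0, 3, 0] [0, 0, 2, 3, 0]
/-- `xtxsx ≈ tx²sx` -/
def Q2 : Prop := S [0, 2, 0, 3, 0] [2, 0, 0, 3, 0]
/-- `xtxsx ≈ xtx²s` -/
def Q3 : Prop := S [0, 2, 0, 3, 0] [0, 2, 0, 0, 3]

/-! ### identities which exchange adjacent powers of `x` and `y` -/

/-- `ytx²sxy ≈ ytx²syx` -/
def D1 : Prop := S [1, 2, 0, 0, 3, 0, 1] [1, 2, 0, 0, 3, 1, 0]
/-- `x²tysxy ≈ x²tysyx` -/
def D2 : Prop := S [0, 0, 2, 1, 3, 0, 1] [0, 0, 2, 1, 3, 1, 0]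
/-- `xytx²sy ≈ yxtx²sy` -/
def D3 : Prop := S [0, 1, 2, 0, 0, 3, 1] [1, 0, 2, 0, 0, 3, 1]
/-- `xytysx² ≈ yxtysx²` -/
def D4 : Prop := S [0, 1, 2, 1, 3, 0, 0] [1, 0, 2, 1, 3, 0, 0]
/-- `x²txysy ≈ x²tyxsy` -/
def D5 : Prop := S [0, 0, 2, 0, 1, 3, 1] [0, 0, 2, 1, 0, 3, 1]
/-- `x³yty ≈ yx³ty` -/
def D6 : Prop := S [0, 0, 0, 1, 2, 1] [1, 0, 0, 0, 2, 1]
/-- `ytx³y ≈ ytyx³` -/
def D7 : Prop := S [1, 2, 0, 0, 0, 1] [1, 2, 1, 0, 0, 0]

/-! ### systems with arbitrary words `p`, `q`, `c`, `r` -/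

/-- `p xy q x c y r ≈ p yx q x c y r`, if every letter of `c` occurs at least twice in this word -/
def F : Prop := ∀ (p q c r : List ℕ) (x y : ℕ),
  Mul c (p ++ x :: y :: (q ++ x :: (c ++ y :: r))) →
    S (p ++ x :: y :: (q ++ x :: (c ++ y :: r))) (p ++ y :: x :: (q ++ x :: (c ++ y :: r)))

/-- `p x c y q xy r ≈ p x c y q yx r`, if every letter of `c` occurs at least twice in this word -/
def F' : Prop := ∀ (p q c r : List ℕ) (x y : ℕ),
  Mul c (p ++ x :: (c ++ y :: (q ++ x :: y :: r))) →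
    S (p ++ x :: (c ++ y :: (q ++ x :: y :: r))) (p ++ x :: (c ++ y :: (q ++ y :: x :: r)))

/-- `p yx c y q ≈ p xy c y q`, if every letter of `c` occurs at least twice in this word and `x ≠ y`
is a letter of `p c q` -/
def G : Prop := ∀ (p c q : List ℕ) (x y : ℕ), x ≠ y → x ∈ p ++ (c ++ q) →
  Mul c (p ++ y :: x :: (c ++ y :: q)) →
    S (p ++ y :: x :: (c ++ y :: q)) (p ++ x :: y :: (c ++ y :: q))

/-- `p c xy q ≈ p c yx q`, if every letter of `c` occurs at least twice in this word, `y` is a letter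
of `c` and not of `p q`, `x` is not a letter of `q` and occurs at least three times in this word -/
def H1 : Prop := ∀ (p c q : List ℕ) (x y : ℕ), y ∈ c → y ∉ p → y ∉ q → x ∉ q →
  Mul c (p ++ (c ++ x :: y :: q)) → 3 ≤ (p ++ (c ++ x :: y :: q)).count x →
    S (p ++ (c ++ x :: y :: q)) (p ++ (c ++ y :: x :: q))

/-- `p xy c q ≈ p yx c q`, if every letter of `c` occurs at least twice in this word, `y` is a letter
of `c` and not of `p q`, `x` is not a letter of `p` and occurs at least three times in this word -/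
def H2 : Prop := ∀ (p c q : List ℕ) (x y : ℕ), y ∈ c → y ∉ p → y ∉ q → x ∉ p →
  Mul c (p ++ x :: y :: (c ++ q)) → 3 ≤ (p ++ x :: y :: (c ++ q)).count x →
    S (p ++ x :: y :: (c ++ q)) (p ++ y :: x :: (c ++ q))

/-- the same identities for words in which `x` occurs at least twice and `y` at least three
times -/
def H3 : Prop := ∀ (p c q : List ℕ) (x y : ℕ), y ∈ c → y ∉ p → y ∉ q → x ∉ p →
  Mul c (p ++ x :: y :: (c ++ q)) → 2 ≤ (p ++ x :: y :: (c ++ q)).count x →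
    3 ≤ (p ++ x :: y :: (c ++ q)).count y →
      S (p ++ x :: y :: (c ++ q)) (p ++ y :: x :: (c ++ q))

/-! ### the three systems -/

/-- first system: `xytxsy ≈ yxtxsy`, `xtxysy ≈ xtyxsy`, `x²y² ≈ y²x²` and one of four conditions; the
identities which have no name are `xytx²y ≈ xytyx²`, `xtxysxy ≈ xtxysyx`, `x²ytxy ≈ x²ytyx`,
`xytxsxy ≈ xytxsyx` -/
def SysA : Prop :=
  S [0, 1, 2, 0, 3, 1] [1, 0, 2, 0, 3, 1] ∧ S [0, 2, 0, 1, 3, 1] [0, 2, 1, 0, 3, 1] ∧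
  S [0, 0, 1, 1] [1, 1, 0, 0] ∧
  ((P1 S ∧ (P2 S ∨ D7 S ∨ S [0, 1, 2, 0, 0, 1] [0, 1, 2, 1, 0, 0]) ∧
      (Q1 S ∨ (D1 S ∧ (D2 S ∨ S [0, 2, 0, 1, 3, 0, 1] [0, 2, 0, 1, 3, 1, 0])))) ∨
    (P2 S ∧ (P1 S ∨ D7 S ∨ S [0, 0, 1, 2, 0, 1] [0, 0, 1, 2, 1, 0]) ∧
      (Q2 S ∨ (D2 S ∧ (D1 S ∨ S [0, 1, 2, 0, 3, 0, 1] [0, 1, 2, 0, 3, 1, 0])))) ∨
    P3 S ∨ P4 S)

/-- second system: `xtxysy ≈ xtyxsy`, `F`, `F'`, moreover `xtxy² ≈ xty²x` or `H1`, `H2`, `H3`, and one of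
four conditions -/
def SysC : Prop :=
  S [0, 2, 0, 1, 3, 1] [0, 2, 1, 0, 3, 1] ∧ F S ∧ F' S ∧
  (S [0, 2, 0, 1, 1] [0, 2, 1, 1, 0] ∨ (H1 S ∧ H2 S ∧ H3 S)) ∧
  ((P1 S ∧ (Q1 S ∨ (D1 S ∧ D3 S))) ∨ (P2 S ∧ (Q2 S ∨ D2 S)) ∨ (P3 S ∧ (Q3 S ∨ D4 S)) ∨ P4 S)

/-- third system: `G`, `F`, `F'` and one of four conditions; the identities which have no name are
`x²ytxsy ≈ yx²txsy`, `x²ytysx ≈ yx²tysx`, `ytxysx² ≈ ytyxsx²` -/
def SysV : Prop :=
  G S ∧ F S ∧ F' S ∧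
  ((P1 S ∧ (P2 S ∨ D6 S) ∧ (Q1 S ∨ (D1 S ∧ D5 S))) ∨
    (P2 S ∧ (P1 S ∨ D6 S) ∧ (Q2 S ∨ (D2 S ∧ D5 S ∧ S [0, 0, 1, 2, 0, 3, 1] [1, 0, 0, 2, 0, 3, 1] ∧
      S [0, 0, 1, 2, 1, 3, 0] [1, 0, 0, 2, 1, 3, 0]))) ∨
    (P3 S ∧ (Q3 S ∨ (D4 S ∧ S [1, 2, 0, 1, 3, 0, 0] [1, 2, 1, 0, 3, 0, 0]))) ∨ P4 S)

end

/-- `V` satisfies one of the three systems -/
def Good (V : Variety) : Prop :=
  let S : List ℕ → List ℕ → Prop := fun u v => V.Sat (FreeMonoid.ofList u) (FreeMonoid.ofList v)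
  SysA S ∨ SysC S ∨ SysV S

/-- `V` satisfies the mirror images of the identities of one of the three systems -/
def CoGood (V : Variety) : Prop :=
  let S : List ℕ → List ℕ → Prop :=
    fun u v => V.Sat (FreeMonoid.ofList u.reverse) (FreeMonoid.ofList v.reverse)
  SysA S ∨ SysC S ∨ SysV S

/-- `x²` is an isoterm for `V` -/
def SquareIsoterm (V : Variety) : Prop := ∀ w, V.Sat (lx ^ 2) w → w = lx ^ 2

/-- `xyx` is an isoterm for `V` -/
def XyxIsoterm (V : Variety) : Prop := ∀ w, V.Sat (lx * ly * lx) w → w = lx * ly * lx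

/-- all high powers are central in `V`: `x^m y ≈ y x^m` for all large `m` -/
def HighPowersCentral (V : Variety) : Prop :=
  ∃ k, ∀ m, k ≤ m → V.Sat (lx ^ m * ly) (ly * lx ^ m)

/-- **Theorem.**  Let `V` be a variety of monoids such that `x²` is an isoterm for `V` or all high powers
are central in `V` (the second case contains all varieties of aperiodic monoids with central
idempotents: there `x^m ≈ x^n` for `m ≥ n`, and `x^n` is idempotent).  Then `L(V)` is modular if and only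
if all high powers are central in `V` and: `xyx` is not an isoterm for `V`, or `V` or its dual satisfies
one of the three systems. -/
theorem result (V : Variety) (h : SquareIsoterm V ∨ HighPowersCentral V) :
    V.ModularLattice ↔ HighPowersCentral V ∧ (¬ XyxIsoterm V ∨ Good V ∨ CoGood V) := by
  have e : ¬ XyxIsoterm V ↔ ∃ w, w ≠ lx * ly * lx ∧ V.Sat (lx * ly * lx) w := by
    unfold XyxIsoterm
    push Not
    exact exists_congr fun w => and_comm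
  rw [e]
  exact Pool.Agent.MVO.H83.final Pool.Agent.MVO.H83.rows V h

end Pool.Agent.Results.MP_23468a_al.CentralPowers
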