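import Pool.Agent.Helper14_MV.J

/-!
# Monoid varieties with modular subvariety lattice: the completely regular case and the
structure of the other varieties
-/

namespace Pool.Agent.MWU.Old.Structure

open Pool.Agent.Helper14_MV
open FreeMonoid (of)

/-- completely regular varieties are those satisfying `x ^ (n+1) ≈ x` for some `n ≥ 1` -/
theorem cr_iff (V : Variety) :
    V.CompletelyRegular ↔ ∃ n, 1 ≤ n ∧ V.Sat (lx ^ (n + 1)) lx := by
  constructor
  · intro h
    have h1 : V.Mem (th V).con.Quotient := by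
      have h2 : (ofFIC (th V)).Mem (th V).con.Quotient := fun a b hab => quot_sat _ hab
      rwa [ofFIC_th] at h2
    obtain ⟨b, hb, _⟩ := h _ h1 ((th V).con.mk' lx)
    obtain ⟨w, rfl⟩ := Con.mk'_surjective b
    rw [← map_mul, ← map_mul] at hb
    have h2 : (th V).r (lx * w * lx) lx := (Con.eq (th V).con).1 hb
    have h3 := (th V).sub (cs 0) h2
    have h4 : cs 0 lx = lx := by rw [cs_apply]; simp [cnt_lx]
    have h6 := (th V).sub (FreeMonoid.lift (fun _ => lx)) h2
    -- replace every letter of w by x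
    have h5 : ∀ u : Word, ∃ k, (FreeMonoid.lift (fun _ => lx) : Word →* Word) u = lx ^ k := by
      intro u
      induction u using FreeMonoid.inductionOn' with
      | one => exact ⟨0, by simp⟩
      | of_mul c u ih =>
        obtain ⟨k, hk⟩ := ih
        refine ⟨k + 1, ?_⟩
        rw [map_mul, hk, FreeMonoid.lift_eval_of, pow_succ']
    obtain ⟨k, hk⟩ := h5 w
    rw [map_mul, map_mul, hk] at h6
    have h7 : (FreeMonoid.lift (fun _ => lx) : Word →* Word) lx = lx := by
      simp [lx, FreeMonoid.lift_eval_of]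
    rw [h7] at h6
    refine ⟨k + 1, by omega, ?_⟩
    have e : lx ^ (k + 1 + 1) = lx * lx ^ k * lx := by rw [pow_succ, pow_succ']
    rw [e]
    exact h6
  · rintro ⟨n, hn, h⟩ M _ hM a
    have h1 := h M hM (FreeMonoid.lift (fun _ => a))
    simp only [map_pow] at h1
    have h7 : (FreeMonoid.lift (fun _ => a) : Word →* M) lx = a := by
      simp [lx, FreeMonoid.lift_eval_of]
    rw [h7] at h1
    obtain ⟨m, rfl⟩ : ∃ m, n = m + 1 := ⟨n - 1, by omega⟩
    refine ⟨a ^ m, ?_, ?_⟩
    · rw [← pow_succ', ← pow_succ]; exact h1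
    · rw [← pow_succ', ← pow_succ]

/-- the variety of monoids satisfying `x ^ (n+1) ≈ x` -/
def CRn (n : ℕ) : Variety where
  Mem := fun M _ => ∀ a : M, a ^ (n + 1) = a
  eqn := ⟨{(lx ^ (n + 1), lx)}, fun M _ => by
    constructor
    · rintro h e rfl φ
      simp only [map_pow]
      exact h _
    · intro h a
      have := h (lx ^ (n + 1), lx) rfl (FreeMonoid.lift (fun _ => a))
      simpa [lx, FreeMonoid.lift_eval_of] using this⟩

theorem crn_sat (n : ℕ) : (CRn n).Sat (lx ^ (n + 1)) lx := by
  intro M _ hM φ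
  rw [map_pow]
  exact hM _

/-- what an identity with left side `x ^ 2` gives -/
theorem sq_id {V : Variety} (hcr : ¬ V.CompletelyRegular) {w : Word} (h : V.Sat (lx ^ 2) w)
    (hw : w ≠ lx ^ 2) : ∃ n, 1 ≤ n ∧ V.Sat (lx ^ 2) (lx ^ (n + 2)) := by
  rw [cr_iff] at hcr
  push_neg at hcr
  have h' : (th V).r (lx ^ 2) w := h
  -- powers equal to one are impossible
  have hone : ∀ c, 1 ≤ c → ¬ (th V).r (lx ^ c) 1 := by
    intro c hc h1
    apply hcr c hc
    have h2 : (th V).r (lx ^ c * lx) (1 * lx) := FIC.mulR lx h1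
    rw [one_mul, ← pow_succ] at h2
    exact h2
  have h0 := (th V).sub (cs 0) h'
  rw [cs_apply, cs_apply] at h0
  have h00 : cnt 0 (lx ^ 2) = 2 := by simp [cnt_lx]
  rw [h00] at h0
  rcases Nat.lt_trichotomy (cnt 0 w) 2 with hc | hc | hc
  · interval_cases h1 : cnt 0 w
    · rw [pow_zero] at h0
      exact absurd h0 (hone 2 (by norm_num))
    · rw [pow_one] at h0
      exact absurd h0 (hcr 1 (le_refl 1))
  · -- another letter occurs in w
    exfalso
    have : ∃ i, i ≠ 0 ∧ cnt i w ≠ 0 := by
      by_contra hcon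
      push_neg at hcon
      apply hw
      have h3 : ct w ⊆ {0} := by
        intro i hi
        by_contra h4
        exact (cnt_eq_zero.1 (hcon i (by simpa using h4))) hi
      rw [pow_of_ct h3, hc]
    obtain ⟨i, hi, hci⟩ := this
    have h1 := (th V).sub (cs i) h'
    rw [cs_apply, cs_apply] at h1
    have h2 : cnt i (lx ^ 2) = 0 := by rw [cnt_pow, cnt_lx_other hi]
    rw [h2, pow_zero] at h1
    exact hone _ (Nat.one_le_iff_ne_zero.2 hci) ((th V).symm h1)
  · exact ⟨cnt 0 w - 2, by omega, by
      have : cnt 0 w - 2 + 2 = cnt 0 w := by omega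
      rw [this]; exact h0⟩

/-- **Main theorem.** (1) The lattice `L(V)` is modular for every variety `V` of completely
regular monoids. (2) Let `V` be a variety of monoids which is not completely regular and whose
subvariety lattice is modular. Then every completely regular subvariety of `V` is commutative, all
groups in `V` are abelian, and either `V` satisfies `x ^ 2 ≈ x ^ (n+2)` for some `n ≥ 1`, or there is
`k ≥ 1` such that `V` satisfies `x ^ m y ≈ y x ^ m` for all `m ≥ k` and `V` is, for every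
`K ≥ 2 k + 1`, the join of its subvariety of all commutative members and its subvariety of all
members satisfying `x ^ (K+1) ≈ x ^ K` (an aperiodic variety with central idempotents). -/
theorem result :
    (∀ V : Variety, V.CompletelyRegular → V.ModularLattice) ∧
    (∀ V : Variety, ¬ V.CompletelyRegular → V.ModularLattice →
      (∀ W : Variety, W ≤ V → W.CompletelyRegular → W.Commutative) ∧
      (∀ (G : Type) [Group G], V.Mem G → ∀ a b : G, a * b = b * a) ∧
      ((∃ n, 1 ≤ n ∧ V.Sat (lx ^ 2) (lx ^ (n + 2))) ∨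
        (∃ k, 1 ≤ k ∧ (∀ m, k ≤ m → V.Sat (lx ^ m * ly) (ly * lx ^ m)) ∧
          ∀ K, 2 * k + 1 ≤ K → V = (V ⊓ Aper K) ⊔ (V ⊓ Com)))) := by
  constructor
  · intro V h
    obtain ⟨n, hn, h1⟩ := (cr_iff V).1 h
    rw [modular_iff]
    exact FIC.modular_CR (FIC.CR.of_letter hn h1)
  · intro V hcr hmod
    have hm := (modular_iff V).1 hmod
    have hcr' : ∀ n, 1 ≤ n → ¬ (th V).r (lx ^ (n + 1)) lx := by
      intro n hn h1
      exact hcr ((cr_iff V).2 ⟨n, hn, h1⟩)
    have hB1 : ∀ W : Variety, W ≤ V → W.CompletelyRegular → W.Commutative := by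
      intro W hW hWcr M _ hM a b
      obtain ⟨n, hn, h1⟩ := (cr_iff W).1 hWcr
      have h2 := B1 (th V) hm hcr' (th W) (le_iff_th.1 hW) n hn h1
      have h3 := h2 M hM (FreeMonoid.lift (fun i => if i = 0 then a else b))
      simpa [lx, ly, FreeMonoid.lift_eval_of] using h3
    have halt : (∃ n, 1 ≤ n ∧ V.Sat (lx ^ 2) (lx ^ (n + 2))) ∨
        (∃ k, 1 ≤ k ∧ (∀ m, k ≤ m → V.Sat (lx ^ m * ly) (ly * lx ^ m)) ∧
          ∀ K, 2 * k + 1 ≤ K → V = (V ⊓ Aper K) ⊔ (V ⊓ Com)) := by
      by_cases h2 : ∀ w, (th V).r (lx ^ 2) w → w = lx ^ 2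
      · right
        obtain ⟨k, hk, h3⟩ := B2 hm h2
        exact ⟨k, hk, h3, fun K hK => J h3 hK⟩
      · left
        push_neg at h2
        obtain ⟨w, hw1, hw2⟩ := h2
        exact sq_id hcr hw1 hw2
    refine ⟨hB1, ?_, halt⟩
    intro G _ hG a b
    rcases halt with ⟨n, hn, h1⟩ | ⟨k, hk, h1, _⟩
    · -- the group satisfies x ^ n = 1
      have hGn : (V ⊓ CRn n).Mem G := by
        refine ⟨hG, fun c => ?_⟩
        have h2 := h1 G hG (FreeMonoid.lift (fun _ => c))
        simp only [map_pow] at h2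
        have h7 : (FreeMonoid.lift (fun _ => c) : Word →* G) lx = c := by
          simp [lx, FreeMonoid.lift_eval_of]
        rw [h7] at h2
        have h3 : c ^ (n + 2) = c ^ (n + 1) * c := pow_succ c (n + 1)
        rw [h3, pow_two] at h2
        exact (mul_right_cancel h2).symm
      refine hB1 (V ⊓ CRn n) inf_le_left ?_ G hGn a b
      rw [cr_iff]
      refine ⟨n, hn, fun M _ hM φ => ?_⟩
      rw [map_pow]
      exact hM.2 _
    · have h2 : ∀ m, k ≤ m → ∀ c d : G, c ^ m * d = d * c ^ m := by
        intro m hm c d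
        have h3 := h1 m hm G hG (FreeMonoid.lift (fun i => if i = 0 then c else d))
        simpa [lx, ly, FreeMonoid.lift_eval_of] using h3
      have h3 := h2 (k + 1) (by omega) a b
      have h4 := h2 k (le_refl k) a b
      rw [pow_succ', mul_assoc, h4, ← mul_assoc, ← mul_assoc] at h3
      exact mul_right_cancel h3

end Pool.Agent.MWU.Old.Structure
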